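import Pool.Agent.Helper83.CO.St

/-!
# Project CO (MP_140278_ag): module CMB (existence of a good lift)
-/

set_option autoImplicit false

open scoped BigOperators

namespace Pool.Agent.Helper66.CO

open Pool.Agent.Helper83.CO

variable {σ δ : Type} [DecidableEq σ]

/-- the slice sum -/
private def sl (E : Finset δ) (f : δ → σ) (q : δ → ℕ) (la : δ → ℕ) (s : σ) : ℕ :=
  ∑ D ∈ E.filter (fun D => f D = s), la D * q D

private def rho (S : Finset σ) (E : Finset δ) (f : δ → σ) (q : δ → ℕ) (la : δ → ℕ) (a b : σ) : ℕ :=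
  ∑ t ∈ (S.erase a).erase b, sl E f q la t

private theorem rho_comm (S : Finset σ) (E : Finset δ) (f : δ → σ) (q : δ → ℕ) (la : δ → ℕ)
    (a b : σ) : rho S E f q la a b = rho S E f q la b a := by
  unfold rho
  rw [Finset.erase_right_comm]

private theorem rho_add (S : Finset σ) (E : Finset δ) (f : δ → σ) (q : δ → ℕ) (la : δ → ℕ)
    (a b : σ) (ha : a ∈ S) (hab : a ≠ b) :
    rho S E f q la a b + sl E f q la a = ∑ t ∈ S.erase b, sl E f q la t := by
  rw [rho_comm]
  unfold rho
  exact Finset.sum_erase_add _ _ (Finset.mem_erase.2 ⟨hab, ha⟩)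

private theorem rho_swap (S : Finset σ) (E : Finset δ) (f : δ → σ) (q : δ → ℕ) (la : δ → ℕ)
    (a c b : σ) (ha : a ∈ S) (hc : c ∈ S) (hab : a ≠ b) (hcb : c ≠ b) :
    rho S E f q la a b + sl E f q la a = rho S E f q la c b + sl E f q la c := by
  rw [rho_add S E f q la a b ha hab, rho_add S E f q la c b hc hcb]

open Classical in
/-- raise one entry by one -/
private noncomputable def up (la : δ → ℕ) (D : δ) : δ → ℕ := fun D' => la D' + if D' = D then 1 else 0

private theorem sl_up (E : Finset δ) (f : δ → σ) (q : δ → ℕ) (la : δ → ℕ) (D : δ) (hD : D ∈ E)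
    (s : σ) : sl E f q (up la D) s = sl E f q la s + if s = f D then q D else 0 := by
  classical
  unfold sl up
  simp only [add_mul, Finset.sum_add_distrib, ite_mul, one_mul, zero_mul]
  congr 1
  rw [Finset.sum_ite_eq' (E.filter (fun D => f D = s)) D q]
  by_cases h : s = f D
  · rw [if_pos h, if_pos (Finset.mem_filter.2 ⟨hD, h.symm⟩)]
  · rw [if_neg h, if_neg (fun h' => h (Finset.mem_filter.1 h').2.symm)]

private theorem sum_sl_up (T : Finset σ) (E : Finset δ) (f : δ → σ) (q : δ → ℕ) (la : δ → ℕ) (D : δ)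
    (hD : D ∈ E) : ∑ t ∈ T, sl E f q (up la D) t =
      ∑ t ∈ T, sl E f q la t + if f D ∈ T then q D else 0 := by
  rw [Finset.sum_congr rfl fun t _ => sl_up E f q la D hD t, Finset.sum_add_distrib,
    Finset.sum_ite_eq' T (f D) (fun _ => q D)]

private theorem sum_up (E : Finset δ) (la : δ → ℕ) (D : δ) (hD : D ∈ E) :
    ∑ D' ∈ E, up la D D' = ∑ D' ∈ E, la D' + 1 := by
  classical
  unfold up
  rw [Finset.sum_add_distrib]
  congr 1
  rw [Finset.sum_ite_eq' E D (fun _ => 1), if_pos hD]

private theorem main (S : Finset σ) (E : Finset δ) (f : δ → σ) (q : δ → ℕ) (hS : 3 ≤ S.card)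
    (h2 : ∀ s ∈ S, 2 ≤ ∑ D ∈ E.filter (fun D => f D = s), q D)
    (L : ℕ) (las : δ → ℕ) (hL : ∀ s ∈ S, sl E f q las s = L) :
    ∀ n : ℕ, ∀ la : δ → ℕ, (∀ D ∈ E, 1 ≤ la D) →
      (∀ D ∈ E, f D ∈ S → la D * q D ≤ las D * q D) →
      (∀ a ∈ S, ∀ b ∈ S, a ≠ b →
        ∑ D ∈ E, la D + 2 * (S.card - 2) ≤ E.card + rho S E f q la a b) →
      L * S.card - ∑ s ∈ S, sl E f q la s = n →
      ∃ (la : δ → ℕ) (d e : ℕ) (s₀ : σ), s₀ ∈ S ∧ (∀ D ∈ E, 1 ≤ la D) ∧ 1 ≤ d ∧
        (∀ s ∈ S, ∑ D ∈ E.filter (fun D => f D = s), la D * q D = d + if s = s₀ then e else 0) ∧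
        ∑ D ∈ E, la D + 2 * (S.card - 2) ≤ E.card + (S.card - 2) * d := by
  intro n
  induction n using Nat.strong_induction_on with
  | _ n IH =>
    intro la h1 hle hI hn
    have hSne : S.Nonempty := Finset.card_pos.1 (by omega)
    obtain ⟨s₁, hs₁, hmin⟩ := Finset.exists_min_image S (sl E f q la) hSne
    have hslle : ∀ s ∈ S, sl E f q la s ≤ L := by
      intro s hs
      rw [← hL s hs]
      unfold sl
      refine Finset.sum_le_sum fun D hD => ?_
      have hD' := Finset.mem_filter.1 hD
      exact hle D hD'.1 (by rw [hD'.2]; exact hs)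
    by_cases hc : ∃ s ∈ S, ∃ s' ∈ S, s ≠ s' ∧ sl E f q la s₁ < sl E f q la s ∧
        sl E f q la s₁ < sl E f q la s'
    · obtain ⟨s, hs, s', hs', hss', hlt, hlt'⟩ := hc
      have hlt1 : sl E f q la s₁ < sl E f q las s₁ := by
        rw [hL s₁ hs₁]
        exact lt_of_lt_of_le hlt (hslle s hs)
      obtain ⟨D, hD, hDlt⟩ := Finset.exists_lt_of_sum_lt hlt1
      have hD' := Finset.mem_filter.1 hD
      have hDE : D ∈ E := hD'.1
      have hq : 0 < q D := by
        rcases Nat.eq_zero_or_pos (q D) with h | h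
        · rw [h] at hDlt; simp at hDlt
        · exact h
      have hla : la D + 1 ≤ las D := Nat.lt_of_mul_lt_mul_right hDlt
      have hsum := sum_sl_up S E f q la D hDE
      rw [hD'.2, if_pos hs₁] at hsum
      have hle' : ∀ D' ∈ E, f D' ∈ S → up la D D' * q D' ≤ las D' * q D' := by
        intro D' hD'E hD'S
        unfold up
        by_cases h : D' = D
        · subst h
          rw [if_pos rfl]
          exact Nat.mul_le_mul_right _ hla
        · rw [if_neg h, add_zero]
          exact hle D' hD'E hD'S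
      have hbound : ∑ s ∈ S, sl E f q (up la D) s ≤ L * S.card := by
        rw [mul_comm, ← smul_eq_mul, ← Finset.sum_const]
        refine Finset.sum_le_sum fun t ht => ?_
        rw [← hL t ht]
        unfold sl
        refine Finset.sum_le_sum fun D₂ hD₂ => ?_
        have hD₂' := Finset.mem_filter.1 hD₂
        exact hle' D₂ hD₂'.1 (by rw [hD₂'.2]; exact ht)
      refine IH (L * S.card - ∑ s ∈ S, sl E f q (up la D) s) (by omega) (up la D) ?_ hle' ?_ rfl
      · intro D' hD'E
        exact le_trans (h1 D' hD'E) (Nat.le_add_right _ _)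
      · have key : ∀ b ∈ S, s₁ ≠ b → ∑ D ∈ E, la D + 2 * (S.card - 2) + 1 ≤
            E.card + rho S E f q la s₁ b := by
          intro b hb hb'
          obtain ⟨c, hc, hcb, hcl⟩ : ∃ c ∈ S, c ≠ b ∧ sl E f q la s₁ < sl E f q la c := by
            by_cases h : s = b
            · exact ⟨s', hs', fun h' => hss' (h.trans h'.symm), hlt'⟩
            · exact ⟨s, hs, h, hlt⟩
          have e1 := rho_swap S E f q la s₁ c b hs₁ hc hb' hcb
          have e2 := hI c hc b hb hcb
          omega
        intro a ha b hb hab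
        rw [sum_up E la D hDE]
        have hr : rho S E f q (up la D) a b =
            rho S E f q la a b + if f D ∈ (S.erase a).erase b then q D else 0 := by
          unfold rho
          exact sum_sl_up _ E f q la D hDE
        rw [hr]
        by_cases h3 : a = s₁
        · subst h3
          have := key b hb hab
          omega
        by_cases h4 : b = s₁
        · subst h4
          have := key a ha (Ne.symm hab)
          rw [rho_comm] at this
          omega
        · have hm : f D ∈ (S.erase a).erase b := by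
            rw [hD'.2]
            exact Finset.mem_erase.2 ⟨Ne.symm h4, Finset.mem_erase.2 ⟨Ne.symm h3, hs₁⟩⟩
          rw [if_pos hm]
          have := hI a ha b hb hab
          omega
    · -- at most one slice is large
      obtain ⟨s₀, hs₀, hs₀'⟩ : ∃ s₀ ∈ S, ∀ t ∈ S, t ≠ s₀ → sl E f q la t = sl E f q la s₁ := by
        by_cases h : ∃ s ∈ S, sl E f q la s₁ < sl E f q la s
        · obtain ⟨s, hs, hlt⟩ := h
          refine ⟨s, hs, fun t ht hts => ?_⟩
          by_contra hne
          exact hc ⟨s, hs, t, ht, Ne.symm hts, hlt, lt_of_le_of_ne (hmin t ht) (Ne.symm hne)⟩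
        · refine ⟨s₁, hs₁, fun t ht _ => ?_⟩
          by_contra hne
          exact h ⟨t, ht, lt_of_le_of_ne (hmin t ht) (Ne.symm hne)⟩
      refine ⟨la, sl E f q la s₁, sl E f q la s₀ - sl E f q la s₁, s₀, hs₀, h1, ?_, ?_, ?_⟩
      · have h3 := h2 s₁ hs₁
        have h4 : ∑ D ∈ E.filter (fun D => f D = s₁), q D ≤ sl E f q la s₁ := by
          unfold sl
          refine Finset.sum_le_sum fun D hD => ?_
          have := h1 D (Finset.mem_filter.1 hD).1
          exact Nat.le_mul_of_pos_left _ this
        omega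
      · intro s hs
        change sl E f q la s = _
        by_cases h : s = s₀
        · subst h
          rw [if_pos rfl]
          have := hmin s hs
          omega
        · rw [if_neg h, add_zero]
          exact hs₀' s hs h
      · obtain ⟨b, hb, hb'⟩ : ∃ b ∈ S, b ≠ s₀ := by
          have : 1 < S.card := by omega
          exact Finset.exists_mem_ne this s₀
        have h3 := hI s₀ hs₀ b hb (Ne.symm hb')
        have h4 : rho S E f q la s₀ b = (S.card - 2) * sl E f q la s₁ := by
          unfold rho
          have hcard : ((S.erase s₀).erase b).card = S.card - 2 := by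
            rw [Finset.card_erase_of_mem (Finset.mem_erase.2 ⟨hb', hb⟩),
              Finset.card_erase_of_mem hs₀]
            omega
          rw [← hcard, ← smul_eq_mul, ← Finset.sum_const]
          refine Finset.sum_congr rfl fun t ht => ?_
          have ht' := Finset.mem_erase.1 ht
          have ht'' := Finset.mem_erase.1 ht'.2
          exact hs₀' t ht''.2 ht''.1
        rw [← h4]
        exact h3

theorem hCMB : StCMB := by
  intro σ δ _ S E f q hS h2
  classical
  -- the target
  let Es : σ → Finset δ := fun s => (E.filter (fun D => f D = s)).filter (fun D => q D ≠ 0)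
  let P : ℕ := ∏ D ∈ E.filter (fun D => q D ≠ 0), q D
  let W : ℕ := ∏ s ∈ S, (Es s).card
  have hn : ∀ s ∈ S, 0 < (Es s).card := by
    intro s hs
    rw [Finset.card_pos]
    by_contra hemp
    rw [Finset.not_nonempty_iff_eq_empty] at hemp
    have h3 := h2 s hs
    have h4 : ∑ D ∈ E.filter (fun D => f D = s), q D = 0 := by
      refine Finset.sum_eq_zero fun D hD => ?_
      by_contra hq
      have : D ∈ Es s := Finset.mem_filter.2 ⟨hD, hq⟩
      rw [hemp] at this
      simp at this
    omega
  have hP : 0 < P := Finset.prod_pos fun D hD => Nat.pos_of_ne_zero (Finset.mem_filter.1 hD).2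
  have hW : 0 < W := Finset.prod_pos fun s hs => hn s hs
  let las : δ → ℕ := fun D => (P / q D) * (W / (Es (f D)).card)
  have hdP : ∀ D ∈ E, q D ≠ 0 → q D ∣ P := fun D hD hq =>
    Finset.dvd_prod_of_mem q (Finset.mem_filter.2 ⟨hD, hq⟩)
  have hdW : ∀ s ∈ S, (Es s).card ∣ W := fun s hs =>
    Finset.dvd_prod_of_mem (fun s => (Es s).card) hs
  have hL : ∀ s ∈ S, sl E f q las s = P * W := by
    intro s hs
    unfold sl
    rw [← Finset.sum_filter_of_ne (p := fun D => q D ≠ 0)
      (fun D _ h hq => h (by rw [hq, mul_zero]))]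
    have e1 : ∀ D ∈ Es s, las D * q D = P * (W / (Es s).card) := by
      intro D hD
      have hD1 := Finset.mem_filter.1 hD
      have hD2 := Finset.mem_filter.1 hD1.1
      change (P / q D) * (W / (Es (f D)).card) * q D = _
      rw [hD2.2, mul_right_comm, Nat.div_mul_cancel (hdP D hD2.1 hD1.2)]
    rw [Finset.sum_congr rfl e1, Finset.sum_const, smul_eq_mul, mul_left_comm,
      Nat.mul_div_cancel' (hdW s hs)]
  refine main S E f q hS h2 (P * W) las hL _ (fun _ => 1) (fun _ _ => le_refl _) ?_ ?_ rfl
  · intro D hD hDS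
    rcases Nat.eq_zero_or_pos (q D) with h | h
    · rw [h]; simp
    · refine Nat.mul_le_mul_right _ ?_
      have h3 : 0 < P / q D := Nat.div_pos (Nat.le_of_dvd hP (hdP D hD h.ne')) h
      have h4 : 0 < W / (Es (f D)).card := Nat.div_pos (Nat.le_of_dvd hW (hdW _ hDS)) (hn _ hDS)
      exact Nat.mul_pos h3 h4
  · intro a ha b hb hab
    rw [Finset.sum_const, smul_eq_mul, mul_one]
    have h3 : 2 * (S.card - 2) ≤ rho S E f q (fun _ => 1) a b := by
      unfold rho
      have hcard : ((S.erase a).erase b).card = S.card - 2 := by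
        rw [Finset.card_erase_of_mem (Finset.mem_erase.2 ⟨Ne.symm hab, hb⟩),
          Finset.card_erase_of_mem ha]
        omega
      rw [← hcard, mul_comm, ← smul_eq_mul, ← Finset.sum_const]
      refine Finset.sum_le_sum fun t ht => ?_
      have ht' := Finset.mem_erase.1 ht
      have ht'' := Finset.mem_erase.1 ht'.2
      have := h2 t ht''.2
      unfold sl
      simpa using this
    omega

end Pool.Agent.Helper66.CO
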